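import Pool.Agent.Y223.G.Stm5
import Pool.Agent.Y474.G.Unr

/-!
Project G, wave 4b: étale coordinates in blocks of a product of smooth algebras permuted by an
automorphism of prime order.  (helper454, for helper223.)
-/

set_option autoImplicit false

namespace Pool.Agent.Y454.G

open IsLocalRing Pool.Agent.W418.LU2 Pool.Agent.Y223.G Pool.Agent.Y474.G

/-! ### Reindexing of étale coordinates -/

theorem etAt_equiv {O K : Type} [CommRing O] [Field K] [Algebra O K] {A : Subalgebra O K}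
    {q : Ideal A} {ι ι' : Type} (e : ι' ≃ ι) {v : ι → A} (h : EtAt A q v) :
    EtAt A q (fun i => v (e i)) := by
  obtain ⟨g, hg, het⟩ := h
  refine ⟨g, hg, ?_⟩
  have h1 := RingHom.Etale.respectsIso.2 _ (MvPolynomial.renameEquiv O e).toRingEquiv het
  have h2 : ((algebraMap A (Localization.Away g)).comp
      (MvPolynomial.aeval (fun i => v (e i)) : MvPolynomial ι' O →ₐ[O] A).toRingHom) =
      ((algebraMap A (Localization.Away g)).comp
      (MvPolynomial.aeval v : MvPolynomial ι O →ₐ[O] A).toRingHom).comp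
        (MvPolynomial.renameEquiv O e).toRingEquiv.toRingHom := by
    refine RingHom.ext fun P => ?_
    change algebraMap A (Localization.Away g) (MvPolynomial.aeval (fun i => v (e i)) P) =
      algebraMap A (Localization.Away g) (MvPolynomial.aeval v (MvPolynomial.rename e P))
    rw [MvPolynomial.aeval_rename]
    rfl
  rw [h2]
  exact h1

theorem etAt_of_bij {O K : Type} [CommRing O] [Field K] [Algebra O K] {A : Subalgebra O K}
    {q : Ideal A} {ι ι' : Type} (f : ι' → ι) (hf : Function.Bijective f) {v : ι → A}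
    (h : EtAt A q (fun i => v (f i))) : EtAt A q v := by
  have h1 := etAt_equiv (Equiv.ofBijective f hf).symm h
  have h2 : (fun i => v (f ((Equiv.ofBijective f hf).symm i))) = v := by
    funext i
    exact congrArg v ((Equiv.ofBijective f hf).apply_symm_apply i)
  rw [h2] at h1
  exact h1

/-! ### Transport -/

theorem tra1 (hT : S_TRA) {O K : Type} [CommRing O] [Field K] [Algebra O K]
    (A₁ A₂ C : Subalgebra O K) (h₁ : A₁ ≤ C) (h₂ : A₂ ≤ C) (θ : K →+* K) (t : O ≃+* O)
    (hθ : ∀ o, θ (algebraMap O K o) = algebraMap O K (t o)) (hmap : ∀ x ∈ A₁, θ x ∈ A₂)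
    (hsur : ∀ y ∈ A₂, ∃ x ∈ A₁, θ x = y) (Q : Ideal C)
    (hQ : ∀ x y : C, (y : K) = θ x → (y ∈ Q ↔ x ∈ Q)) {ι : Type} [Finite ι] (v : ι → A₁)
    (hv : EtAt A₁ (Q.comap (Subalgebra.inclusion h₁ : A₁ →+* C)) v) :
    EtAt A₂ (Q.comap (Subalgebra.inclusion h₂ : A₂ →+* C))
      (fun i => ⟨θ (v i), hmap _ (v i).2⟩) := by
  let φ₀ : A₁ →+* A₂ := RingHom.codRestrict (θ.comp A₁.val.toRingHom) A₂ fun x => hmap _ x.2
  have hφ₀ : ∀ x : A₁, ((φ₀ x : A₂) : K) = θ x := fun x => rfl
  have hbij : Function.Bijective φ₀ := by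
    constructor
    · intro x y h
      have h1 := congrArg (fun z : A₂ => (z : K)) h
      simp only [hφ₀] at h1
      exact Subtype.ext (θ.injective h1)
    · intro y
      obtain ⟨x, hx, hxy⟩ := hsur y y.2
      exact ⟨⟨x, hx⟩, Subtype.ext hxy⟩
  let φ : A₁ ≃+* A₂ := RingEquiv.ofBijective φ₀ hbij
  have hφ : ∀ x : A₁, ((φ x : A₂) : K) = θ x := fun x => rfl
  have h3 : (Q.comap (Subalgebra.inclusion h₂ : A₂ →+* C)).comap (φ : A₁ →+* A₂) =
      Q.comap (Subalgebra.inclusion h₁ : A₁ →+* C) := by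
    ext x
    rw [Ideal.mem_comap, Ideal.mem_comap, Ideal.mem_comap]
    exact hQ (Subalgebra.inclusion h₁ x) (Subalgebra.inclusion h₂ (φ x)) rfl
  have h4 := hT O K A₁ A₂ t φ (fun o => Subtype.ext (hθ o))
    (Q.comap (Subalgebra.inclusion h₂ : A₂ →+* C)) ι v (by rw [h3]; exact hv)
  exact h4

/-! ### Orbits -/

theorem iter_mul {α : Type} {f : α → α} {p : ℕ} (h : ∀ x, f^[p] x = x) (n : ℕ) (x : α) :
    f^[p * n] x = x := by
  rw [Function.iterate_mul]
  have h1 : f^[p] = id := funext h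
  rw [h1, Function.iterate_id]
  rfl

theorem iter_back {α : Type} {f : α → α} {p : ℕ} (hp : 1 ≤ p) (h : ∀ x, f^[p] x = x) (n : ℕ)
    (x : α) : f^[(p - 1) * n] (f^[n] x) = x := by
  rw [← Function.iterate_add_apply]
  have h1 : (p - 1) * n + n = p * n := by
    obtain ⟨q, rfl⟩ : ∃ q, p = q + 1 := ⟨p - 1, by omega⟩
    rw [Nat.add_sub_cancel]
    ring
  rw [h1]
  exact iter_mul h n x

theorem iter_forth {α : Type} {f : α → α} {p : ℕ} (hp : 1 ≤ p) (h : ∀ x, f^[p] x = x) (n : ℕ)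
    (x : α) : f^[n] (f^[(p - 1) * n] x) = x := by
  rw [← Function.iterate_add_apply]
  have h1 : n + (p - 1) * n = p * n := by
    obtain ⟨q, rfl⟩ : ∃ q, p = q + 1 := ⟨p - 1, by omega⟩
    rw [Nat.add_sub_cancel]
    ring
  rw [h1]
  exact iter_mul h n x

theorem orb {Ω : Type} (ϖ : Equiv.Perm Ω) (p : ℕ) (hp : p.Prime) (h : ∀ ω, ϖ^[p] ω = ω) :
    ∃ (b : Ω → Ω) (a : Ω → ℕ), (∀ ω, ϖ^[a ω] (b ω) = ω) ∧ (∀ ω, a ω < p) ∧
      (∀ n ω, b (ϖ^[n] ω) = b ω) ∧
      (∀ ω, ϖ ω ≠ ω → ∀ n < p, ϖ^[n] (b ω) = ω → n = a ω) ∧ ∀ ω, ϖ ω = ω → b ω = ω := by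
  classical
  let s : Setoid Ω :=
    { r := fun ω ω' => ∃ n, ϖ^[n] ω = ω'
      iseqv :=
        { refl := fun ω => ⟨0, rfl⟩
          symm := by
            rintro ω ω' ⟨n, rfl⟩
            exact ⟨(p - 1) * n, iter_back hp.one_le h n ω⟩
          trans := by
            rintro ω ω' ω'' ⟨n, rfl⟩ ⟨m, rfl⟩
            exact ⟨m + n, Function.iterate_add_apply _ _ _ _⟩ } }
  let b : Ω → Ω := fun ω => (Quotient.mk s ω).out
  have hb : ∀ ω, ∃ n, ϖ^[n] (b ω) = ω := fun ω => Quotient.exact (Quotient.out_eq (Quotient.mk s ω))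
  have ha : ∀ ω, ∃ n, n < p ∧ ϖ^[n] (b ω) = ω := by
    intro ω
    obtain ⟨n, hn⟩ := hb ω
    refine ⟨n % p, Nat.mod_lt _ hp.pos, ?_⟩
    have h1 : Function.IsPeriodicPt ϖ p (b ω) := h (b ω)
    rw [h1.iterate_mod_apply]
    exact hn
  choose a ha1 ha2 using ha
  have hinj : ∀ n : ℕ, Function.Injective (ϖ^[n]) := fun n => ϖ.injective.iterate n
  have hfix : ∀ ω, ϖ ω = ω → ∀ n, ϖ^[n] ω = ω := fun ω hω n => Function.iterate_fixed hω n
  refine ⟨b, a, ha2, ha1, ?_, ?_, ?_⟩
  · intro n ω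
    have h1 : Quotient.mk s (ϖ^[n] ω) = Quotient.mk s ω :=
      (Quotient.sound (s := s) ⟨n, rfl⟩).symm
    exact congrArg Quotient.out h1
  · intro ω hω n hn hnω
    have hper : Function.IsPeriodicPt ϖ p (b ω) := h (b ω)
    rcases (Nat.dvd_prime hp).1 hper.minimalPeriod_dvd with h1 | h1
    · exfalso
      have h2 : ϖ (b ω) = b ω := Function.minimalPeriod_eq_one_iff_isFixedPt.1 h1
      rw [hfix _ h2] at hnω
      rw [hnω] at h2
      exact hω h2
    · have h2 := Function.iterate_injOn_Iio_minimalPeriod (f := ϖ) (x := b ω)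
      rw [h1] at h2
      exact h2 hn (ha1 ω) (hnω.trans (ha2 ω).symm)
  · intro ω hω
    exact hinj (a ω) ((ha2 ω).trans (hfix ω hω (a ω)).symm)

/-! ### The uniqueness property along an orbit -/

theorem core1 {O K : Type} [CommRing O] [Field K] [Algebra O K] (C : Subalgebra O K)
    (σ : C →+* C) (t : O → O) (ht : ∀ o, σ (algebraMap O C o) = algebraMap O C (t o)) (p : ℕ)
    (hord : ∀ x, σ^[p] x = x) (Q : Ideal C) (hQ : ∀ c, σ c - c ∈ Q) (A₀ : Subalgebra O K)
    (h₀ : A₀ ≤ C) (r : ℕ) (u : Fin r → A₀)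
    (hU : UNQ A₀ (Q.comap (Subalgebra.inclusion h₀ : A₀ →+* C)) u)
    (B : Type) [CommRing B] [IsLocalRing B] [IsNoetherianRing B] (φ : C →+* B)
    (h1 : ∀ c ∈ Q, φ c ∈ maximalIdeal B) (h2 : ∀ c, c ∉ Q → IsUnit (φ c))
    (h3 : ∀ o, φ (algebraMap O C (t o - o)) = 0)
    (h4 : ∀ j a, 1 ≤ a → a < p → φ ((df σ)^[a] (Subalgebra.inclusion h₀ (u j))) = 0) :
    ∀ i, i ≤ p → ∀ x : A₀, φ (σ^[i] (Subalgebra.inclusion h₀ x)) =
      φ (Subalgebra.inclusion h₀ x) := by
  have hO : ∀ (i : ℕ) (o : O), φ (itr σ i (algebraMap O C o)) = φ (algebraMap O C o) := by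
    intro i
    induction i with
    | zero => intro o; rfl
    | succ i ih =>
      intro o
      have e1 : itr σ (i + 1) (algebraMap O C o) = itr σ i (algebraMap O C (t o)) := by
        change itr σ i (σ (algebraMap O C o)) = _
        rw [ht]
      have e2 := h3 o
      rw [map_sub, map_sub, sub_eq_zero] at e2
      rw [e1, ih, e2]
  have hu : ∀ (j : Fin r) (i a : ℕ), a + i < p →
      φ (itr σ i ((df σ)^[a] (Subalgebra.inclusion h₀ (u j)))) =
        φ ((df σ)^[a] (Subalgebra.inclusion h₀ (u j))) := by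
    intro j i
    induction i with
    | zero => intro a _; rfl
    | succ i ih =>
      intro a ha
      have e1 : σ ((df σ)^[a] (Subalgebra.inclusion h₀ (u j))) =
          (df σ)^[a] (Subalgebra.inclusion h₀ (u j)) +
            (df σ)^[a + 1] (Subalgebra.inclusion h₀ (u j)) := by
        rw [Function.iterate_succ_apply']
        unfold df
        ring
      change φ (itr σ i (σ ((df σ)^[a] (Subalgebra.inclusion h₀ (u j))))) = _
      rw [e1, map_add, map_add, ih a (by omega), ih (a + 1) (by omega), h4 j (a + 1) (by omega)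
        (by omega), add_zero]
  have hres : ∀ (i : ℕ) (c : C), itr σ i c - c ∈ Q := by
    intro i
    induction i with
    | zero =>
      intro c
      change c - c ∈ Q
      rw [sub_self]
      exact Q.zero_mem
    | succ i ih =>
      intro c
      have e1 : itr σ (i + 1) c - c = (itr σ i (σ c) - σ c) + (σ c - c) := by
        change itr σ i (σ c) - c = _
        ring
      rw [e1]
      exact Q.add_mem (ih (σ c)) (hQ c)
  set ι : A₀ →+* C := (Subalgebra.inclusion h₀ : A₀ →+* C) with hι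
  set f : ℕ → (A₀ →+* B) := fun i => (φ.comp (itr σ i)).comp ι with hf
  have hfa : ∀ i a, f i a = φ (itr σ i (ι a)) := fun i a => rfl
  have hιO : ∀ o : O, ι (algebraMap O A₀ o) = algebraMap O C o := fun o => rfl
  have hf0 : ∀ i, i < p → f i = f 0 := by
    intro i hi
    refine hU B (f i) (f 0) ?_ ?_ ?_ ?_
    · intro o
      rw [hfa, hfa, hιO, hO, hO]
    · intro j
      exact hu j i 0 (by omega)
    · intro a
      rw [hfa, hfa, ← map_sub]
      refine h1 _ ?_
      exact hres i (ι a)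
    · intro a ha
      rw [hfa]
      refine h2 _ fun h => ha ?_
      rw [Ideal.mem_comap]
      have e1 := Q.sub_mem h (hres i (ι a))
      rw [sub_sub_cancel] at e1
      exact e1
  intro i hi x
  have hfi : f i = f 0 := by
    rcases Nat.lt_or_ge i p with h | h
    · exact hf0 i h
    · have : i = p := le_antisymm hi h
      subst this
      ext a
      rw [hfa, hfa, itr_apply, hord]
      rfl
  have := congrArg (fun g : A₀ →+* B => g x) hfi
  simp only [hfa, itr_apply] at this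
  exact this

/-- the equalizer -/
theorem core2 {O K B Ω : Type} [CommRing O] [Field K] [Algebra O K] [CommRing B]
    (A : Ω → Subalgebra O K) (C : Subalgebra O K) (hC : C = ⨆ ω, A ω) (σ : C →+* C) (φ : C →+* B)
    (hO : ∀ o, φ (σ (algebraMap O C o)) = φ (algebraMap O C o))
    (hA : ∀ ω, A ω ≤ Algebra.adjoin O {x : K | ∃ h : x ∈ C, φ (σ ⟨x, h⟩) = φ ⟨x, h⟩}) (c : C) :
    φ (σ c) = φ c := by
  let E : Subalgebra O C :=
    { carrier := {c | φ (σ c) = φ c}
      mul_mem' := fun {a b} ha hb => by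
        change φ (σ (a * b)) = φ (a * b)
        rw [map_mul, map_mul, map_mul, show φ (σ a) = φ a from ha, show φ (σ b) = φ b from hb]
      add_mem' := fun {a b} ha hb => by
        change φ (σ (a + b)) = φ (a + b)
        rw [map_add, map_add, map_add, show φ (σ a) = φ a from ha, show φ (σ b) = φ b from hb]
      algebraMap_mem' := fun o => hO o }
  have h1 : Algebra.adjoin O {x : K | ∃ h : x ∈ C, φ (σ ⟨x, h⟩) = φ ⟨x, h⟩} ≤ E.map C.val := by
    refine Algebra.adjoin_le ?_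
    rintro x ⟨h, hx⟩
    exact ⟨⟨x, h⟩, hx, rfl⟩
  have h2 : C ≤ E.map C.val := by
    conv_lhs => rw [hC]
    exact iSup_le fun ω => (hA ω).trans h1
  obtain ⟨c', hc', hcc⟩ := h2 c.2
  have h3 : c' = c := Subtype.ext hcc
  rw [h3] at hc'
  exact hc'

theorem core3 {O K Ω : Type} [CommRing O] [Field K] [Algebra O K] (A : Ω → Subalgebra O K)
    (C : Subalgebra O K) (hC : C = ⨆ ω, A ω) (hle : ∀ ω, A ω ≤ C) (σ : C →+* C) (t : O → O)
    (ht : ∀ o, σ (algebraMap O C o) = algebraMap O C (t o)) (p : ℕ)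
    (hord : ∀ x, σ^[p] x = x) (Q : Ideal C) (hQ : ∀ c, σ c - c ∈ Q) (R : Set Ω) (r : Ω → ℕ)
    (u : ∀ ω, Fin (r ω) → A ω)
    (hU : ∀ ω, UNQ (A ω) (Q.comap (Subalgebra.inclusion (hle ω) : A ω →+* C)) (u ω))
    (B : Type) [CommRing B] [IsLocalRing B] [IsNoetherianRing B] (φ : C →+* B)
    (h1 : ∀ c ∈ Q, φ c ∈ maximalIdeal B) (h2 : ∀ c, c ∉ Q → IsUnit (φ c))
    (h3 : ∀ o, φ (algebraMap O C (t o - o)) = 0)
    (h4 : ∀ ω ∈ R, ∀ j a, 1 ≤ a → a < p →
      φ ((df σ)^[a] (Subalgebra.inclusion (hle ω) (u ω j))) = 0)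
    (hA : ∀ ω, A ω ≤ Algebra.adjoin O {x : K | ∃ h : x ∈ C, σ ⟨x, h⟩ = ⟨x, h⟩} ∨
      ∃ ω' ∈ R, ∃ n < p, ∀ x (hx : x ∈ A ω), ∃ y : A ω',
        σ^[n] (Subalgebra.inclusion (hle ω') y) = ⟨x, hle ω hx⟩) (c : C) :
    φ (σ c) = φ c := by
  have h5 : ∀ ω ∈ R, ∀ i, i ≤ p → ∀ x : A ω, φ (σ^[i] (Subalgebra.inclusion (hle ω) x)) =
      φ (Subalgebra.inclusion (hle ω) x) := fun ω hω =>
    core1 C σ t ht p hord Q hQ (A ω) (hle ω) (r ω) (u ω) (hU ω) B φ h1 h2 h3 (h4 ω hω)
  refine core2 A C hC σ φ ?_ ?_ c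
  · intro o
    rw [ht]
    have e2 := h3 o
    rw [map_sub, map_sub] at e2
    exact sub_eq_zero.1 e2
  · intro ω
    rcases hA ω with h | ⟨ω', hω', n, hn, h⟩
    · refine h.trans (Algebra.adjoin_mono ?_)
      rintro x ⟨hx, hσ⟩
      exact ⟨hx, by rw [hσ]⟩
    · intro x hx
      obtain ⟨y, hy⟩ := h x hx
      refine Algebra.subset_adjoin ?_
      refine ⟨hle ω hx, ?_⟩
      have e2 := h5 ω' hω' (n + 1) hn y
      have e3 := h5 ω' hω' n hn.le y
      rw [Function.iterate_succ_apply', hy] at e2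
      rw [hy] at e3
      exact e2.trans e3.symm

/-- the residue ring -/
theorem core4 {C : Type} [CommRing C] (hN : IsNoetherianRing C) (Q : Ideal C) [Q.IsPrime]
    (J : Ideal (Localization.AtPrime Q)) (hJ : J ≠ ⊤) :
    ∃ (B : Type) (_ : CommRing B) (_ : IsLocalRing B) (_ : IsNoetherianRing B) (φ : C →+* B),
      (∀ x, φ x = 0 ↔ algebraMap C (Localization.AtPrime Q) x ∈ J) ∧
      (∀ c ∈ Q, φ c ∈ maximalIdeal B) ∧ ∀ c, c ∉ Q → IsUnit (φ c) := by
  have hNB : IsNoetherianRing (Localization.AtPrime Q) :=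
    IsLocalization.isNoetherianRing Q.primeCompl _ hN
  have hnt : Nontrivial (Localization.AtPrime Q ⧸ J) := Ideal.Quotient.nontrivial_iff.2 hJ
  have hloc : IsLocalRing (Localization.AtPrime Q ⧸ J) :=
    IsLocalRing.of_surjective' (Ideal.Quotient.mk J) Ideal.Quotient.mk_surjective
  have hJm : J ≤ maximalIdeal (Localization.AtPrime Q) := IsLocalRing.le_maximalIdeal hJ
  refine ⟨Localization.AtPrime Q ⧸ J, inferInstance, hloc, inferInstance,
    (Ideal.Quotient.mk J).comp (algebraMap C (Localization.AtPrime Q)), fun x => ?_, ?_, ?_⟩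
  · rw [RingHom.comp_apply]
    exact Ideal.Quotient.eq_zero_iff_mem
  · intro x hx
    rw [mem_maximalIdeal, mem_nonunits_iff]
    intro hu
    obtain ⟨y, hy⟩ := hu.exists_right_inv
    obtain ⟨z, rfl⟩ := Ideal.Quotient.mk_surjective y
    rw [RingHom.comp_apply, ← map_mul, ← map_one (Ideal.Quotient.mk J), Ideal.Quotient.eq] at hy
    have h1 : algebraMap C (Localization.AtPrime Q) x ∈ maximalIdeal (Localization.AtPrime Q) := by
      rw [← Localization.AtPrime.map_eq_maximalIdeal]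
      exact Ideal.mem_map_of_mem _ hx
    have h2 := (maximalIdeal (Localization.AtPrime Q)).sub_mem
      (Ideal.mul_mem_right z _ h1) (hJm hy)
    rw [sub_sub_cancel] at h2
    exact (maximalIdeal.isMaximal _).ne_top ((Ideal.eq_top_iff_one _).2 h2)
  · intro x hx
    rw [RingHom.comp_apply]
    exact (IsLocalization.map_units (Localization.AtPrime Q)
      (⟨x, hx⟩ : Q.primeCompl)).map (Ideal.Quotient.mk J)

/-! ### The theorem -/

theorem t_BWLD (hC : S_COORD) (hT : S_TRA) (hF : S_ETF) : S_BWLD := by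
  classical
  intro k O K _ _ _ _ _ _ _ _ _ hinj p hp τ t hord hcom Ω _ A ϖ hϖ hst hft hld hfx 𝔓 hsm C hCA
    hN σ hσ Q _ hQ𝔓 hQ
  subst hCA
  have hle : ∀ ω, A ω ≤ ⨆ ω, A ω := fun ω => le_iSup A ω
  have hσn : ∀ (n : ℕ) (c : (⨆ ω, A ω : Subalgebra O K)),
      ((σ^[n] c : (⨆ ω, A ω : Subalgebra O K)) : K) = τ^[n] c := by
    intro n
    induction n with
    | zero => intro c; rfl
    | succ n ih =>
      intro c
      rw [Function.iterate_succ_apply, Function.iterate_succ_apply, ih, hσ]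
  have hσO : ∀ o, σ (algebraMap O (⨆ ω, A ω : Subalgebra O K) o) =
      algebraMap O (⨆ ω, A ω : Subalgebra O K) (t o) := fun o =>
    Subtype.ext ((hσ _).trans (hcom o))
  have hσp : ∀ x, σ^[p] x = x := fun x => Subtype.ext ((hσn p x).trans (hord x))
  have hres : ∀ (n : ℕ) c, σ^[n] c - c ∈ Q := by
    intro n
    induction n with
    | zero =>
      intro c
      change c - c ∈ Q
      rw [sub_self]
      exact Q.zero_mem
    | succ n ih =>
      intro c
      rw [Function.iterate_succ_apply]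
      have e1 : σ^[n] (σ c) - c = (σ^[n] (σ c) - σ c) + (σ c - c) := by ring
      rw [e1]
      exact Q.add_mem (ih (σ c)) (hQ c)
  have hmem : ∀ (n : ℕ) ω x, x ∈ A ω → τ^[n] x ∈ A (ϖ^[n] ω) := by
    intro n
    induction n with
    | zero => intro ω x hx; exact hx
    | succ n ih =>
      intro ω x hx
      rw [Function.iterate_succ_apply, Function.iterate_succ_apply]
      exact ih (ϖ ω) (τ x) (hst ω x hx)
  have hsur : ∀ (n : ℕ) ω y, y ∈ A (ϖ^[n] ω) → ∃ x ∈ A ω, τ^[n] x = y := by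
    intro n ω y hy
    refine ⟨τ^[(p - 1) * n] y, ?_, iter_forth hp.one_le hord n y⟩
    have h1 := hmem ((p - 1) * n) (ϖ^[n] ω) y hy
    rwa [iter_back hp.one_le hϖ n ω] at h1
  obtain ⟨b, a, hba, hap, hbn, huniq, hbf⟩ := orb ϖ p hp hϖ
  -- étale coordinates of the factors
  have hco : ∀ ω, ∃ (r : ℕ) (u : Fin r → A ω),
      EtAt (A ω) (Q.comap (Subalgebra.inclusion (hle ω) : A ω →+* _)) u ∧
      UNQ (A ω) (Q.comap (Subalgebra.inclusion (hle ω) : A ω →+* _)) u := by
    intro ω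
    refine hC O K (A ω) (hft ω) _ (hsm ω _ ?_)
    rw [Ideal.comap_comap, ← hQ𝔓]
    rfl
  choose rr uu hEt hU using hco
  -- representatives
  let Rp := {ω : Ω // ϖ ω ≠ ω ∧ b ω = ω}
  let Rf := {ω : Ω // ϖ ω = ω}
  let Sp := (ω : Rp) × Fin (rr ω.1)
  let Sf := (ω : Rf) × Fin (rr ω.1)
  let Idx := (Fin p × Sp) ⊕ Sf
  let W : Idx → (⨆ ω, A ω : Subalgebra O K) := Sum.elim
    (fun x => σ^[x.1] (Subalgebra.inclusion (hle x.2.1.1) (uu x.2.1.1 x.2.2)))
    (fun y => Subalgebra.inclusion (hle y.1.1) (uu y.1.1 y.2))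
  let π : Idx → Ω := Sum.elim (fun x => ϖ^[x.1] x.2.1.1) (fun y => y.1.1)
  have hW : ∀ x, ((W x : (⨆ ω, A ω : Subalgebra O K)) : K) ∈ A (π x) := by
    rintro (x | y)
    · have h1 : ((W (Sum.inl x) : (⨆ ω, A ω : Subalgebra O K)) : K) =
          τ^[x.1] (uu x.2.1.1 x.2.2 : K) := hσn _ _
      rw [h1]
      exact hmem _ _ _ (uu x.2.1.1 x.2.2).2
    · exact (uu y.1.1 y.2).2
  have hW' : ∀ ω (x : {x : Idx // π x = ω}),
      ((W x.1 : (⨆ ω, A ω : Subalgebra O K)) : K) ∈ A ω := by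
    rintro ω ⟨x, rfl⟩
    exact hW x
  -- the coordinates of one factor
  have hfac : ∀ ω, EtAt (A ω) (Q.comap (Subalgebra.inclusion (hle ω) : A ω →+* _))
      (fun x : {x : Idx // π x = ω} => (⟨W x.1, hW' ω x⟩ : A ω)) := by
    intro ω
    by_cases hω : ϖ ω = ω
    · have hbω : b ω = ω := hbf ω hω
      let f : Fin (rr ω) → {x : Idx // π x = ω} := fun j => ⟨Sum.inr ⟨⟨ω, hω⟩, j⟩, rfl⟩
      refine etAt_of_bij f ⟨?_, ?_⟩ (hEt ω)
      · intro j j' h
        have h1 : (Sum.inr ⟨⟨ω, hω⟩, j⟩ : Idx) = Sum.inr ⟨⟨ω, hω⟩, j'⟩ := congrArg Subtype.val h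
        have h2 : (⟨⟨ω, hω⟩, j⟩ : Sf) = ⟨⟨ω, hω⟩, j'⟩ := Sum.inr.inj h1
        exact eq_of_heq (Sigma.mk.inj h2).2
      · rintro ⟨x | ⟨⟨ω', hω'⟩, j⟩, hx⟩
        · exfalso
          have h1 : ϖ^[x.1] x.2.1.1 = ω := hx
          have h2 : ϖ^[x.1] ω = ω := Function.iterate_fixed hω _
          have h3 : x.2.1.1 = ω := ϖ.injective.iterate _ (h1.trans h2.symm)
          exact x.2.1.2.1 (by rw [h3]; exact hω)
        · have h1 : ω' = ω := hx
          subst h1
          exact ⟨j, rfl⟩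
    · have hbω : ϖ (b ω) ≠ b ω ∧ b (b ω) = b ω := by
        constructor
        · intro h
          apply hω
          have h1 := hba ω
          rw [Function.iterate_fixed h] at h1
          rw [← h1]
          exact h
        · have h1 := hbn (a ω) (b ω)
          rw [hba] at h1
          exact h1.symm
      let f : Fin (rr (b ω)) → {x : Idx // π x = ω} := fun j =>
        ⟨Sum.inl (⟨a ω, hap ω⟩, ⟨⟨b ω, hbω⟩, j⟩), hba ω⟩
      refine etAt_of_bij f ⟨?_, ?_⟩ ?_
      · intro j j' h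
        have h1 : (Sum.inl (⟨a ω, hap ω⟩, ⟨⟨b ω, hbω⟩, j⟩) : Idx) =
            Sum.inl (⟨a ω, hap ω⟩, ⟨⟨b ω, hbω⟩, j'⟩) := congrArg Subtype.val h
        have h2 : (⟨⟨b ω, hbω⟩, j⟩ : Sp) = ⟨⟨b ω, hbω⟩, j'⟩ := (Prod.mk.inj (Sum.inl.inj h1)).2
        exact eq_of_heq (Sigma.mk.inj h2).2
      · rintro ⟨⟨a', ⟨ω', hω'⟩, j⟩ | ⟨⟨ω', hω'⟩, j⟩, hx⟩
        · have h1 : ϖ^[a'] ω' = ω := hx
          have h2 : b ω = ω' := by
            rw [← h1, hbn]
            exact hω'.2
          subst h2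
          have h3 : (a' : ℕ) = a ω := huniq ω hω a' a'.2 h1
          have h4 : a' = ⟨a ω, hap ω⟩ := Fin.ext h3
          subst h4
          exact ⟨j, rfl⟩
        · exfalso
          have h1 : ω' = ω := hx
          rw [h1] at hω'
          exact hω hω'
      · -- transport by the automorphism
        obtain ⟨θ, hθ⟩ : ∃ θ : K →+* K, ∀ x, θ x = τ^[a ω] x := by
          have h1 : ∀ n : ℕ, ∃ θ : K →+* K, ∀ x, θ x = τ^[n] x := by
            intro n
            induction n with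
            | zero => exact ⟨RingHom.id K, fun x => rfl⟩
            | succ n ih =>
              obtain ⟨θ, hθ⟩ := ih
              exact ⟨(τ : K →+* K).comp θ, fun x => by
                rw [Function.iterate_succ_apply', ← hθ]
                rfl⟩
          exact h1 _
        obtain ⟨t', ht'⟩ : ∃ t' : O ≃+* O, ∀ o, θ (algebraMap O K o) = algebraMap O K (t' o) := by
          have h1 : ∀ n : ℕ, ∃ t' : O ≃+* O, ∀ o, τ^[n] (algebraMap O K o) =
              algebraMap O K (t' o) := by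
            intro n
            induction n with
            | zero => exact ⟨RingEquiv.refl O, fun o => rfl⟩
            | succ n ih =>
              obtain ⟨t', ht'⟩ := ih
              exact ⟨t'.trans (t : O ≃+* O), fun o => by
                rw [Function.iterate_succ_apply', ht', hcom]
                rfl⟩
          obtain ⟨t', ht'⟩ := h1 (a ω)
          exact ⟨t', fun o => by rw [hθ, ht']⟩
        have h1 := tra1 hT (A (b ω)) (A ω) (⨆ ω, A ω) (hle (b ω)) (hle ω) θ t' ht'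
          (fun x hx => by
            rw [hθ]
            have h2 := hmem (a ω) (b ω) x hx
            rwa [hba] at h2)
          (fun y hy => by
            obtain ⟨x, hx, hxy⟩ := hsur (a ω) (b ω) y (by rw [hba]; exact hy)
            exact ⟨x, hx, by rw [hθ]; exact hxy⟩) Q
          (fun x y hxy => by
            have h2 : y = σ^[a ω] x := Subtype.ext (by rw [hxy, hθ, hσn])
            have h3 := hres (a ω) x
            rw [← h2] at h3
            constructor
            · intro hy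
              have h4 := Q.sub_mem hy h3
              rwa [sub_sub_cancel] at h4
            · intro hx
              have h4 := Q.add_mem h3 hx
              rwa [sub_add_cancel] at h4) (uu (b ω)) (hEt (b ω))
        have h2 : (fun j => (⟨W (f j).1, hW' ω (f j)⟩ : A ω)) =
            fun j => (⟨θ (uu (b ω) j), by
              rw [hθ]
              have h2 := hmem (a ω) (b ω) _ (uu (b ω) j).2
              rwa [hba] at h2⟩ : A ω) := by
          funext j
          refine Subtype.ext ?_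
          change ((σ^[a ω] (Subalgebra.inclusion (hle (b ω)) (uu (b ω) j)) :
            (⨆ ω, A ω : Subalgebra O K)) : K) = θ (uu (b ω) j)
          rw [hσn, hθ]
          rfl
        rw [h2]
        exact h1
  -- all coordinates
  have hall : EtAt (⨆ ω, A ω) Q W := by
    have h1 := hF O K hinj Ω A hld Q (fun ω => {x : Idx // π x = ω})
      (fun ω x => (⟨W x.1, hW' ω x⟩ : A ω)) hfac
    have h2 := etAt_equiv (Equiv.sigmaFiberEquiv π).symm h1
    exact h2
  -- reindexing
  have hfin : Finite Sp := inferInstance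
  let e0 : Fin (Nat.card Sp) ≃ Sp := (Finite.equivFin Sp).symm
  refine ⟨Nat.card Sp, fun j => Subalgebra.inclusion (hle (e0 j).1.1) (uu (e0 j).1.1 (e0 j).2),
    Sf, inferInstance, fun y => Subalgebra.inclusion (hle y.1.1) (uu y.1.1 y.2), ?_, ?_⟩
  · have h1 := etAt_equiv (Equiv.sumCongr (Equiv.prodCongr (Equiv.refl (Fin p)) e0)
      (Equiv.refl Sf)) hall
    have h2 : (fun i => W ((Equiv.sumCongr (Equiv.prodCongr (Equiv.refl (Fin p)) e0)
        (Equiv.refl Sf)) i)) = Sum.elim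
        (fun ai : Fin p × Fin (Nat.card Sp) => σ^[ai.1]
          (Subalgebra.inclusion (hle (e0 ai.2).1.1) (uu (e0 ai.2).1.1 (e0 ai.2).2)))
        (fun y : Sf => Subalgebra.inclusion (hle y.1.1) (uu y.1.1 y.2)) := by
      funext i
      rcases i with i | i
      · rfl
      · rfl
    rw [h2] at h1
    exact h1
  · intro J hJ1 hJ2 c
    by_cases hJ : J = ⊤
    · rw [hJ]; exact Submodule.mem_top
    obtain ⟨B, _, _, _, φ, hφ0, h1, h2⟩ := core4 hN Q J hJ
    refine (hφ0 _).1 ?_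
    rw [map_sub]
    refine sub_eq_zero.2 ?_
    refine core3 A (⨆ ω, A ω) rfl hle (σ : _ →+* (⨆ ω, A ω : Subalgebra O K)) t hσO p hσp Q hQ
      {ω | ϖ ω ≠ ω ∧ b ω = ω} rr uu hU B φ h1 h2 (fun o => (hφ0 _).2 (hJ1 o)) ?_ ?_ c
    · intro ω hω j n hn1 hn2
      have h5 := hJ2 (e0.symm ⟨⟨ω, hω⟩, j⟩) n hn1 hn2
      beta_reduce at h5
      rw [e0.apply_symm_apply] at h5
      exact (hφ0 _).2 h5
    · intro ω
      by_cases hω : ϖ ω = ω
      · left
        refine (hfx ω hω).trans (Algebra.adjoin_mono ?_)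
        rintro x ⟨hx, hτ⟩
        exact ⟨hle ω hx, Subtype.ext ((hσ _).trans hτ)⟩
      · right
        have hbω : ϖ (b ω) ≠ b ω ∧ b (b ω) = b ω := by
          constructor
          · intro h
            apply hω
            have h1 := hba ω
            rw [Function.iterate_fixed h] at h1
            rw [← h1]
            exact h
          · have h1 := hbn (a ω) (b ω)
            rw [hba] at h1
            exact h1.symm
        refine ⟨b ω, hbω, a ω, hap ω, fun x hx => ?_⟩
        obtain ⟨y, hy, hyx⟩ := hsur (a ω) (b ω) x (by rw [hba]; exact hx)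
        exact ⟨⟨y, hy⟩, Subtype.ext (Eq.trans (hσn _ _) hyx)⟩

end Pool.Agent.Y454.G
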